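import Pool.Agent.Work.MP_648063_co.Defs
import Pool.Agent.Work.MP_648063_co.Proof

/-!
Q1: a nu-regular graph minimises the intersection number among connected graphs with the same
numbers of vertices and edges.
-/

namespace Pool.Agent.Results.MP_648063_co.NuRegularMin

open Pool.Agent.Work.MP_648063_co

universe u v

theorem result {V : Type u} {W : Type v} [Finite V] [Finite W]
    (G : SimpleGraph V) (H : SimpleGraph W) (hn : 2 ≤ Nat.card V)
    (hG : IsNuRegular G) (hH : H.Connected)
    (hV : Nat.card W = Nat.card V) (hE : H.edgeSet.ncard = G.edgeSet.ncard) :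
    cap G ≤ cap H :=
  have _ := hn
  main G H hG hH hV hE

end Pool.Agent.Results.MP_648063_co.NuRegularMin
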